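import Pool.Agent.H83.G.Targets1

/-!
# (DCY) decay of Fourier integrals on `ℝ × ℝ^m`
-/

set_option autoImplicit false

namespace Pool.Agent.H1.G

open MeasureTheory Set FourierTransform
open Pool.Agent.H83.G
open scoped ENNReal NNReal RealInnerProductSpace

theorem ty_eq {m : ℕ} (Φ : EuclideanSpace ℝ (Fin (m + 1)) ≃L[ℝ] (ℝ × E m))
    (hΦ : MeasurePreserving Φ volume volume)
    (hin : ∀ x ξ, (Φ x).1 * (Φ ξ).1 + ⟪(Φ x).2, (Φ ξ).2⟫ = ⟪x, ξ⟫) (M : ℝ × E m → ℂ)
    (x : EuclideanSpace ℝ (Fin (m + 1))) :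
    TY M (Φ x) = 𝓕 (fun ξ => M (Φ ξ)) (-x) := by
  unfold TY
  have hemb : MeasurableEmbedding Φ := Φ.toHomeomorph.measurableEmbedding
  rw [← hΦ.integral_comp hemb]
  rw [← Real.fourierInv_eq_fourier_neg, Real.fourierInv_eq']
  refine integral_congr_ae (Filter.Eventually.of_forall fun ξ => ?_)
  simp only [hin, smul_eq_mul]
  congr 1
  unfold e
  rw [real_inner_comm]

theorem pf_DCY (hTRY : T_TRY) : T_DCY := by
  intro m L D
  obtain ⟨Φ, hΦ, hin⟩ := hTRY m
  obtain ⟨V, hV⟩ : ∃ V : ℝ, V = (volume (Metric.closedBall (0 : ℝ × E m) D)).toReal := ⟨_, rfl⟩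
  have hV0 : 0 ≤ V := hV ▸ ENNReal.toReal_nonneg
  obtain ⟨c, hc⟩ : ∃ c : ℝ, c = 1 + ‖(Φ : EuclideanSpace ℝ (Fin (m + 1)) →L[ℝ] (ℝ × E m))‖ :=
    ⟨_, rfl⟩
  have hc1 : 1 ≤ c := by
    have h := norm_nonneg (Φ : EuclideanSpace ℝ (Fin (m + 1)) →L[ℝ] (ℝ × E m))
    rw [hc]
    linarith
  have hc0 : 0 < c := by linarith
  refine ⟨(c ^ L * 2 ^ L) * (2 * (2 ^ L * ((L + 1) * (c ^ L * (V + 1))))), by positivity, ?_⟩
  intro M B hB hM hsupp hder u
  obtain ⟨x, rfl⟩ := Φ.surjective u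
  obtain ⟨f, hf⟩ : ∃ f : EuclideanSpace ℝ (Fin (m + 1)) → ℂ, f = fun ξ => M (Φ ξ) := ⟨_, rfl⟩
  have hfs : ContDiff ℝ (⊤ : ℕ∞) f := by
    rw [hf]; exact hM.comp Φ.contDiff
  have hball : ∀ ξ, ξ ∉ Φ ⁻¹' (Metric.closedBall (0 : ℝ × E m) D) → ξ ∉ tsupport f := by
    intro ξ hξ h
    have hcl : IsClosed (Φ ⁻¹' (Metric.closedBall (0 : ℝ × E m) D)) :=
      Metric.isClosed_closedBall.preimage Φ.continuous
    apply hξ
    refine closure_minimal ?_ hcl h
    intro y hy
    rw [mem_preimage, mem_closedBall_zero_iff]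
    apply hsupp
    rw [hf] at hy
    exact hy
  have hder2 : ∀ j ≤ L, ∀ ξ, ‖iteratedFDeriv ℝ j f ξ‖ ≤
      (Φ ⁻¹' (Metric.closedBall (0 : ℝ × E m) D)).indicator (fun _ => c ^ L * B) ξ := by
    intro j hj ξ
    by_cases hξ : ξ ∈ Φ ⁻¹' (Metric.closedBall (0 : ℝ × E m) D)
    · rw [indicator_of_mem hξ]
      have h1 : iteratedFDeriv ℝ j f ξ =
          (iteratedFDeriv ℝ j M (Φ ξ)).compContinuousLinearMap
            fun _ => (Φ : EuclideanSpace ℝ (Fin (m + 1)) →L[ℝ] (ℝ × E m)) := by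
        rw [hf]
        exact ContinuousLinearMap.iteratedFDeriv_comp_right
          (Φ : EuclideanSpace ℝ (Fin (m + 1)) →L[ℝ] (ℝ × E m)) hM ξ (i := j)
          (by exact_mod_cast le_top)
      rw [h1]
      refine (ContinuousMultilinearMap.norm_compContinuousLinearMap_le _ _).trans ?_
      rw [Finset.prod_const, Finset.card_univ, Fintype.card_fin, mul_comm]
      have h2 : ‖(Φ : EuclideanSpace ℝ (Fin (m + 1)) →L[ℝ] (ℝ × E m))‖ ^ j ≤ c ^ L := by
        calc ‖(Φ : EuclideanSpace ℝ (Fin (m + 1)) →L[ℝ] (ℝ × E m))‖ ^ j ≤ c ^ j := by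
              apply pow_le_pow_left₀ (norm_nonneg _)
              rw [hc]; linarith
          _ ≤ c ^ L := pow_le_pow_right₀ hc1 hj
      exact mul_le_mul h2 (hder j hj _) (norm_nonneg _) (by positivity)
    · rw [indicator_of_notMem hξ]
      have h1 : iteratedFDeriv ℝ j f ξ = 0 := by
        by_contra h
        exact hball ξ hξ (support_iteratedFDeriv_subset j h)
      rw [h1, norm_zero]
  have hmeas : MeasurableSet (Φ ⁻¹' (Metric.closedBall (0 : ℝ × E m) D)) :=
    (Metric.isClosed_closedBall.preimage Φ.continuous).measurableSet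
  have hvol : volume (Φ ⁻¹' (Metric.closedBall (0 : ℝ × E m) D)) =
      volume (Metric.closedBall (0 : ℝ × E m) D) :=
    hΦ.measure_preimage Metric.isClosed_closedBall.measurableSet.nullMeasurableSet
  have hfin : volume (Φ ⁻¹' (Metric.closedBall (0 : ℝ × E m) D)) ≠ ⊤ := by
    rw [hvol]
    exact (isCompact_closedBall _ _).measure_lt_top.ne
  have hindint : Integrable ((Φ ⁻¹' (Metric.closedBall (0 : ℝ × E m) D)).indicator
      (fun _ => c ^ L * B) : EuclideanSpace ℝ (Fin (m + 1)) → ℝ) := by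
    rw [integrable_indicator_iff hmeas]
    exact integrableOn_const hfin
  have hint : ∀ j ≤ L, Integrable (fun ξ => ‖iteratedFDeriv ℝ j f ξ‖) := by
    intro j hj
    apply hindint.mono'
    · exact ((hfs.continuous_iteratedFDeriv (m := j) (by exact_mod_cast le_top)).norm).aestronglyMeasurable
    · filter_upwards with ξ
      rw [norm_norm]
      exact hder2 j hj ξ
  have hintle : ∀ j ≤ L, ∫ ξ, ‖iteratedFDeriv ℝ j f ξ‖ ≤ c ^ L * (V + 1) * B := by
    intro j hj
    calc ∫ ξ, ‖iteratedFDeriv ℝ j f ξ‖ ≤ ∫ ξ, (Φ ⁻¹' (Metric.closedBall (0 : ℝ × E m) D)).indicator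
          (fun _ => c ^ L * B) ξ := integral_mono (hint j hj) hindint (hder2 j hj)
      _ = V * (c ^ L * B) := by
          rw [integral_indicator hmeas, setIntegral_const, smul_eq_mul]
          congr 1
          rw [hV, Measure.real, hvol]
      _ ≤ _ := by
          have : 0 ≤ c ^ L * B := by positivity
          nlinarith
  have hint' : ∀ (k n : ℕ), (k : ℕ∞) ≤ (0 : ℕ∞) → (n : ℕ∞) ≤ (L : ℕ∞) →
      Integrable (fun v => ‖v‖ ^ k * ‖iteratedFDeriv ℝ n f v‖) := by
    intro k n hk hn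
    have hk0 : k = 0 := by
      have : k ≤ 0 := by exact_mod_cast hk
      omega
    have hn0 : n ≤ L := by exact_mod_cast hn
    subst hk0
    simpa using hint n hn0
  have hbd : ∀ n ≤ L, ‖x‖ ^ n * ‖TY M (Φ x)‖ ≤ 2 ^ L * ((L + 1) * (c ^ L * (V + 1) * B)) := by
    intro n hn
    have h1 := Real.pow_mul_norm_iteratedFDeriv_fourier_le (f := f) (K := 0) (N := (L : ℕ∞))
      (hfs.of_le (by exact_mod_cast le_top)) hint' (k := 0) (n := n) le_rfl
      (by exact_mod_cast hn) (-x)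
    rw [norm_neg, norm_iteratedFDeriv_zero] at h1
    rw [ty_eq Φ hΦ hin M x, ← hf]
    refine h1.trans ?_
    simp only [pow_zero, one_mul, CharP.cast_eq_zero, mul_zero, zero_add]
    have h2 : ∑ p ∈ Finset.range 1 ×ˢ Finset.range (n + 1),
        ∫ v, ‖v‖ ^ p.1 * ‖iteratedFDeriv ℝ p.2 f v‖ ≤ (L + 1) * (c ^ L * (V + 1) * B) := by
      calc _ ≤ ∑ p ∈ Finset.range 1 ×ˢ Finset.range (n + 1), (c ^ L * (V + 1) * B) := by
            apply Finset.sum_le_sum
            rintro ⟨p, q⟩ hp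
            rw [Finset.mem_product, Finset.mem_range, Finset.mem_range] at hp
            have hp0 : p = 0 := by
              have := hp.1
              simp only at this
              omega
            have hq : q ≤ L := by
              have := hp.2
              simp only at this
              omega
            subst hp0
            simpa using hintle q hq
        _ = (n + 1) * (c ^ L * (V + 1) * B) := by
            rw [Finset.sum_const, Finset.card_product, Finset.card_range, Finset.card_range,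
              nsmul_eq_mul]
            push_cast
            ring
        _ ≤ _ := by
            have : (n : ℝ) ≤ L := by exact_mod_cast hn
            have h3 : 0 ≤ c ^ L * (V + 1) * B := by positivity
            gcongr
    have h3 : (2 : ℝ) ^ n ≤ 2 ^ L := pow_le_pow_right₀ (by norm_num) hn
    have h4 : 0 ≤ ∑ p ∈ Finset.range 1 ×ˢ Finset.range (n + 1),
        ∫ v, ‖v‖ ^ p.1 * ‖iteratedFDeriv ℝ p.2 f v‖ :=
      Finset.sum_nonneg fun p _ => integral_nonneg fun v => by positivity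
    exact mul_le_mul h3 h2 h4 (by positivity)
  have h0 := hbd 0 (Nat.zero_le _)
  have hL := hbd L le_rfl
  rw [pow_zero, one_mul] at h0
  have hu : (1 + ‖Φ x‖) ^ L ≤ c ^ L * 2 ^ L * (1 + ‖x‖ ^ L) := by
    have h1 : ‖Φ x‖ ≤ c * ‖x‖ := by
      calc ‖Φ x‖ ≤ ‖(Φ : EuclideanSpace ℝ (Fin (m + 1)) →L[ℝ] (ℝ × E m))‖ * ‖x‖ :=
            (Φ : EuclideanSpace ℝ (Fin (m + 1)) →L[ℝ] (ℝ × E m)).le_opNorm x
        _ ≤ _ := by
            apply mul_le_mul_of_nonneg_right _ (norm_nonneg _)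
            rw [hc]; linarith
    have h2 : 1 + ‖Φ x‖ ≤ c * (2 * max 1 ‖x‖) := by
      have := le_max_left (1 : ℝ) ‖x‖
      have := le_max_right (1 : ℝ) ‖x‖
      nlinarith [norm_nonneg x]
    calc (1 + ‖Φ x‖) ^ L ≤ (c * (2 * max 1 ‖x‖)) ^ L := pow_le_pow_left₀ (by positivity) h2 L
      _ = c ^ L * 2 ^ L * (max 1 ‖x‖) ^ L := by rw [mul_pow, mul_pow]; ring
      _ ≤ _ := by
          apply mul_le_mul_of_nonneg_left _ (by positivity)
          rcases max_choice (1 : ℝ) ‖x‖ with h | h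
          · rw [h, one_pow]
            have : 0 ≤ ‖x‖ ^ L := by positivity
            linarith
          · rw [h]; linarith
  rw [← div_eq_mul_inv, le_div_iff₀ (by positivity)]
  calc ‖TY M (Φ x)‖ * (1 + ‖Φ x‖) ^ L ≤ ‖TY M (Φ x)‖ * (c ^ L * 2 ^ L * (1 + ‖x‖ ^ L)) := by
        gcongr
    _ = (c ^ L * 2 ^ L) * (‖TY M (Φ x)‖ + ‖x‖ ^ L * ‖TY M (Φ x)‖) := by ring
    _ ≤ (c ^ L * 2 ^ L) * (2 ^ L * ((L + 1) * (c ^ L * (V + 1) * B)) +
          2 ^ L * ((L + 1) * (c ^ L * (V + 1) * B))) := by gcongr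
    _ = _ := by ring

end Pool.Agent.H1.G
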