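import Pool.Agent.H83.G.Targets2

/-!
# (ENB) bound of the energy near a ball
-/

set_option autoImplicit false

namespace Pool.Agent.H1.G.ENB

open MeasureTheory Set
open Pool.Agent.H83.G
open scoped ENNReal NNReal RealInnerProductSpace

private theorem tp_cont (hSCH : T_SCH) (hCPS : T_CPS) {m L : ℕ} {β : E m → ℂ} (hβ : IsPU β)
    {κ R A : ℝ} {G : Z m → ℂ} (hκ : κ ≤ 1 / 2) (hG : Cls L κ R A G) (η : E m)
    {s : ℝ} (hs : 0 < s) : Continuous (TP β η s G) := by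
  have h1 : TC (fun ζ => cp β η s ζ * G ζ) := by
    apply hCPS m β η s G hβ.1 hs hG.1
    intro ζ hζ
    have := (hG.2.1 ζ hζ).1
    linarith
  exact (hSCH m _ h1).1

theorem pf_ENB (hCLR : T_CLR) (hAVG : T_AVG) (hLOA : T_LOA) (hPUS : T_PUS) (hWT1 : T_WT1)
    (hSCH : T_SCH) (hCPS : T_CPS) : T_ENB := by
  intro m L N β δ hβ hδ hN
  obtain ⟨-, -, C₀, hC₀, -, -, hctr⟩ := hPUS m
  obtain ⟨C₁, hC₁, hclr⟩ := hCLR m L β δ (max 1 C₀) hβ hδ (le_max_left _ _)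
  obtain ⟨C₂, havg⟩ := hAVG m N hN
  refine ⟨(C₂ : ℝ) * C₁ + 1, by positivity, ?_⟩
  intro κ R A G z₀ hκ0 hκ hR hA hG
  have hR0 : 0 < R := by linarith
  have hsq : 1 ≤ Real.sqrt R := by
    rw [← Real.sqrt_one]
    exact Real.sqrt_le_sqrt hR
  have hs0 : 0 < sR R := by unfold sR; positivity
  have hs1 : sR R ≤ 1 := by
    unfold sR
    exact inv_le_one_of_one_le₀ hsq
  have hcont : ∀ k, Continuous (TP β (ctr (sR R) k) (sR R) G) := fun k =>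
    tp_cont hSCH hCPS hβ hκ hG _ hs0
  have hmeas : ∀ k, Measurable fun z => ‖TP β (ctr (sR R) k) (sR R) G z‖ₑ ^ 2 := fun k =>
    ((hcont k).measurable.enorm).pow_const 2
  obtain ⟨F, hF⟩ : ∃ F : Z m → ℝ≥0∞, F = fun z => ∑ k ∈ Ks m (sR R),
    ‖TP β (ctr (sR R) k) (sR R) G z‖ₑ ^ 2 := ⟨_, rfl⟩
  have hFm : Measurable F := by
    rw [hF]
    exact Finset.measurable_sum _ fun k _ => hmeas k
  obtain ⟨S, hS⟩ : ∃ S : ℝ≥0, S = (C₁ * R ^ δ * (A ^ 2 * R ^ (m + 2))).toNNReal := ⟨_, rfl⟩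
  have hSe : (S : ℝ≥0∞) = ENNReal.ofReal (C₁ * R ^ δ * (A ^ 2 * R ^ (m + 2))) := by
    rw [hS]; rfl
  have hpl : ∀ z₁, ∫⁻ z in pl 0 1 R z₁, F z ≤ S := by
    intro z₁
    have h1 := hclr κ R A G (sR R) 1 R 0 z₁ (Ks m (sR R)) hκ0 hκ hR hA hG le_rfl hs1 one_pos
      le_rfl hR (by simp) (by
        unfold sR
        have : R = Real.sqrt R * Real.sqrt R := (Real.mul_self_sqrt hR0.le).symm
        rw [← div_eq_mul_inv, le_div_iff₀ (by positivity), one_mul]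
        nlinarith) (by
        intro k hk
        rw [sub_zero, mul_one]
        exact (hctr (sR R) k hs0 hs1 hk).trans (le_max_right _ _))
    rw [hSe, hF, lintegral_finsetSum _ fun k _ => hmeas k]
    refine h1.trans (le_of_eq ?_)
    congr 1
    have : R * 1 ^ 2 / R = 1 := by field_simp
    rw [this, one_pow, mul_one, div_one]
  obtain ⟨c, hc⟩ : ∃ c : ℝ, c = R ^ (-(2 * δ)) := ⟨_, rfl⟩
  have hc0 : 0 < c := by rw [hc]; positivity
  have hc1 : c ≤ 1 := by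
    rw [hc]
    apply Real.rpow_le_one_of_one_le_of_nonpos hR
    linarith
  have h2 := havg F 0 1 R c (R ^ (-(1 + 2 * δ)) • z₀) S hFm one_pos hR0 hc0 hc1 hpl
  have hLo : ∀ z : Z m, Lo 0 1 z = z := fun z => ((hLOA m).2.2.2.2.1 z).1
  have hvec : ∀ z : Z m, c • R⁻¹ • Lo 0 1 z - R ^ (-(1 + 2 * δ)) • z₀ =
      R ^ (-(1 + 2 * δ)) • (z - z₀) := by
    intro z
    rw [hLo, smul_smul, smul_sub]
    congr 2
    rw [hc, ← Real.rpow_neg_one R, ← Real.rpow_add hR0]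
    congr 1
    ring
  simp only [hvec] at h2
  have hEr : Er N β R δ G z₀ = ∫⁻ z, F z * ENNReal.ofReal (wt N (R ^ (-(1 + 2 * δ)) • (z - z₀))) := by
    unfold Er
    rw [← lintegral_finsetSum]
    · refine lintegral_congr fun z => ?_
      rw [hF, Finset.sum_mul]
    · intro k _
      apply (hmeas k).mul
      apply Measurable.ennreal_ofReal
      exact ((hWT1 m N).2.1.comp (by fun_prop : Continuous fun z : Z m =>
        R ^ (-(1 + 2 * δ)) • (z - z₀))).measurable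
  rw [hEr]
  refine h2.trans ?_
  rw [hSe]
  have hcoe : (C₂ : ℝ≥0∞) = ENNReal.ofReal (C₂ : ℝ) := (ENNReal.ofReal_coe_nnreal).symm
  rw [hcoe, ← ENNReal.ofReal_mul (by positivity), ← ENNReal.ofReal_mul (by positivity)]
  apply ENNReal.ofReal_le_ofReal
  have hpow : (c⁻¹) ^ (m + 2) * R ^ δ ≤ R ^ (lo m * δ) := by
    have h3 : (c⁻¹) ^ (m + 2) = R ^ (2 * δ * ((m : ℝ) + 2)) := by
      rw [hc, ← Real.rpow_neg hR0.le, neg_neg, ← Real.rpow_natCast, ← Real.rpow_mul hR0.le]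
      push_cast
      rfl
    rw [h3, ← Real.rpow_add hR0]
    apply Real.rpow_le_rpow_of_exponent_le hR
    unfold lo
    have hm : (0 : ℝ) ≤ m := Nat.cast_nonneg m
    nlinarith [mul_nonneg hm hδ.le]
  have hRp : R ^ (m + 2) = R ^ ((m : ℝ) + 2) := by
    rw [← Real.rpow_natCast]
    push_cast
    rfl
  have hX : 0 ≤ A ^ 2 * R ^ ((m : ℝ) + 2) := by positivity
  calc (C₂ : ℝ) * c⁻¹ ^ (m + 2) * (C₁ * R ^ δ * (A ^ 2 * R ^ (m + 2)))
      = (C₂ : ℝ) * C₁ * (c⁻¹ ^ (m + 2) * R ^ δ) * (A ^ 2 * R ^ ((m : ℝ) + 2)) := by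
        rw [hRp]; ring
    _ ≤ (C₂ : ℝ) * C₁ * R ^ (lo m * δ) * (A ^ 2 * R ^ ((m : ℝ) + 2)) := by gcongr
    _ ≤ ((C₂ : ℝ) * C₁ + 1) * R ^ (lo m * δ) * (A ^ 2 * R ^ ((m : ℝ) + 2)) := by
        gcongr
        linarith

end Pool.Agent.H1.G.ENB
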