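import Pool.Agent.H81.GT.TargetsT

/-!
# (VOL) volume of the region reached from a plank
-/

set_option autoImplicit false

namespace Pool.Agent.H1.G.VOL

open MeasureTheory Set
open scoped ENNReal NNReal RealInnerProductSpace
open Pool.Agent.H83.LS
open Pool.Agent.H81.GT

private theorem sv_closed {n : ℕ} (t s D M : ℝ) (η : EE n) : IsClosed (SV t s D M η) := by
  let K : Set (EE n) := Metric.closedBall 0 (1 / 3) ∩ Metric.closedBall η (7 * s)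
  have hK : IsCompact K := (isCompact_closedBall _ _).inter_right Metric.isClosed_closedBall
  have : CompactSpace K := isCompact_iff_compactSpace.1 hK
  let A : Set ((EE n × ℝ) × K) := {x | |t - x.1.2 + ⟪x.1.1, (x.2 : EE n)⟫ +
    x.1.2 * ‖(x.2 : EE n)‖ ^ 2| ≤ D ∧ ‖x.1.1 + (2 * x.1.2) • (x.2 : EE n)‖ ≤ M}
  have hA : IsClosed A := by
    apply IsClosed.inter
    · exact isClosed_le (f := fun x : (EE n × ℝ) × K => |t - x.1.2 + ⟪x.1.1, (x.2 : EE n)⟫ +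
        x.1.2 * ‖(x.2 : EE n)‖ ^ 2|) (g := fun _ => D) (by fun_prop) (by fun_prop)
    · exact isClosed_le (f := fun x : (EE n × ℝ) × K =>
        ‖x.1.1 + (2 * x.1.2) • (x.2 : EE n)‖) (g := fun _ => M) (by fun_prop) (by fun_prop)
  have h : SV t s D M η = Prod.fst '' A := by
    ext p
    constructor
    · rintro ⟨θ, h1, h2, h3, h4⟩
      refine ⟨(p, ⟨θ, ⟨?_, ?_⟩⟩), ⟨h3, h4⟩, rfl⟩
      · rw [mem_closedBall_zero_iff]; exact h1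
      · rw [Metric.mem_closedBall, dist_eq_norm]; exact h2
    · rintro ⟨⟨p', θ⟩, ⟨h3, h4⟩, rfl⟩
      refine ⟨θ, ?_, ?_, h3, h4⟩
      · have := θ.2.1
        rw [mem_closedBall_zero_iff] at this
        exact this
      · have := θ.2.2
        rw [Metric.mem_closedBall, dist_eq_norm] at this
        exact this
  rw [h]
  exact isClosedMap_fst_of_compactSpace _ hA

/-- the value of `w` -/
private theorem w_eq {n : ℕ} {t w q : ℝ} {y θ : EE n}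
    (hq : q = t - w + ⟪y, θ⟫ + w * ‖θ‖ ^ 2) :
    w * (1 + ‖θ‖ ^ 2) = t + ⟪y + (2 * w) • θ, θ⟫ - q := by
  rw [inner_add_left, inner_smul_left, real_inner_self_eq_norm_sq]
  simp only [conj_trivial]
  rw [hq]
  ring

private theorem lip {n : ℕ} {θ η : EE n} (hθ : ‖θ‖ ≤ 1 / 3) (hη : ‖η‖ ≤ 1 / 3) :
    ‖(1 + ‖θ‖ ^ 2)⁻¹ • θ - (1 + ‖η‖ ^ 2)⁻¹ • η‖ ≤ 2 * ‖θ - η‖ := by
  have h1 : (1 + ‖θ‖ ^ 2)⁻¹ • θ - (1 + ‖η‖ ^ 2)⁻¹ • η =
      (1 + ‖θ‖ ^ 2)⁻¹ • (θ - η) + ((‖η‖ ^ 2 - ‖θ‖ ^ 2) * ((1 + ‖θ‖ ^ 2)⁻¹ * (1 + ‖η‖ ^ 2)⁻¹)) • η := by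
    have h2 : (‖η‖ ^ 2 - ‖θ‖ ^ 2) * ((1 + ‖θ‖ ^ 2)⁻¹ * (1 + ‖η‖ ^ 2)⁻¹) =
        (1 + ‖θ‖ ^ 2)⁻¹ - (1 + ‖η‖ ^ 2)⁻¹ := by
      have : (0 : ℝ) < 1 + ‖θ‖ ^ 2 := by positivity
      have : (0 : ℝ) < 1 + ‖η‖ ^ 2 := by positivity
      field_simp
      ring
    rw [h2, smul_sub, sub_smul]
    abel
  have hi : ∀ x : EE n, 0 ≤ (1 + ‖x‖ ^ 2)⁻¹ ∧ (1 + ‖x‖ ^ 2)⁻¹ ≤ 1 := fun x =>
    ⟨by positivity, inv_le_one_of_one_le₀ (by have := sq_nonneg ‖x‖; linarith)⟩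
  have h3 : |‖η‖ ^ 2 - ‖θ‖ ^ 2| ≤ 2 / 3 * ‖θ - η‖ := by
    have h4 : ‖η‖ ^ 2 - ‖θ‖ ^ 2 = (‖η‖ - ‖θ‖) * (‖η‖ + ‖θ‖) := by ring
    rw [h4, abs_mul, abs_of_nonneg (by positivity : 0 ≤ ‖η‖ + ‖θ‖)]
    have h5 : |‖η‖ - ‖θ‖| ≤ ‖θ - η‖ := by
      rw [norm_sub_rev]
      exact abs_norm_sub_norm_le _ _
    have h6 : ‖η‖ + ‖θ‖ ≤ 2 / 3 := by linarith
    calc |‖η‖ - ‖θ‖| * (‖η‖ + ‖θ‖) ≤ ‖θ - η‖ * (2 / 3) :=
          mul_le_mul h5 h6 (by positivity) (norm_nonneg _)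
      _ = _ := by ring
  rw [h1]
  refine (norm_add_le _ _).trans ?_
  rw [norm_smul, norm_smul, Real.norm_of_nonneg (hi θ).1, Real.norm_eq_abs, abs_mul,
    abs_of_nonneg (mul_nonneg (hi θ).1 (hi η).1)]
  have h7 : (1 + ‖θ‖ ^ 2)⁻¹ * ‖θ - η‖ ≤ 1 * ‖θ - η‖ :=
    mul_le_mul_of_nonneg_right (hi θ).2 (norm_nonneg _)
  have h8 : (1 + ‖θ‖ ^ 2)⁻¹ * (1 + ‖η‖ ^ 2)⁻¹ ≤ 1 := by
    calc (1 + ‖θ‖ ^ 2)⁻¹ * (1 + ‖η‖ ^ 2)⁻¹ ≤ 1 * 1 :=
          mul_le_mul (hi θ).2 (hi η).2 (hi η).1 zero_le_one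
      _ = 1 := one_mul 1
  have h9 : |‖η‖ ^ 2 - ‖θ‖ ^ 2| * ((1 + ‖θ‖ ^ 2)⁻¹ * (1 + ‖η‖ ^ 2)⁻¹) ≤ 2 / 3 * ‖θ - η‖ * 1 :=
    mul_le_mul h3 h8 (mul_nonneg (hi θ).1 (hi η).1) (by positivity)
  have h10 : |‖η‖ ^ 2 - ‖θ‖ ^ 2| * ((1 + ‖θ‖ ^ 2)⁻¹ * (1 + ‖η‖ ^ 2)⁻¹) * ‖η‖ ≤
      2 / 3 * ‖θ - η‖ * 1 * (1 / 3) :=
    mul_le_mul h9 hη (norm_nonneg _) (by positivity)
  linarith [norm_nonneg (θ - η)]

private theorem y_ball {n : ℕ} {t s D M w : ℝ} {y η : EE n} (hη : ‖η‖ ≤ 1 / 3)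
    (h : (y, w) ∈ SV t s D M η) :
    ‖y - (-(2 * t)) • (1 + ‖η‖ ^ 2)⁻¹ • η‖ ≤ 2 * M + D + 28 * (|t| * s) := by
  obtain ⟨θ, hθ, hθη, hq, hY⟩ := h
  simp only at hq hY
  have hw := w_eq (n := n) (t := t) (w := w) (y := y) (θ := θ) rfl
  set q := t - w + ⟪y, θ⟫ + w * ‖θ‖ ^ 2 with hqd
  set Y := y + (2 * w) • θ with hYd
  have hp : (0 : ℝ) < 1 + ‖θ‖ ^ 2 := by positivity
  have hYθ : |⟪Y, θ⟫| ≤ M / 3 := by
    refine (abs_real_inner_le_norm _ _).trans ?_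
    calc ‖Y‖ * ‖θ‖ ≤ M * (1 / 3) := mul_le_mul hY hθ (norm_nonneg _)
          ((norm_nonneg _).trans hY)
      _ = _ := by ring
  have hM0 : 0 ≤ M := (norm_nonneg _).trans hY
  have hD0 : 0 ≤ D := (abs_nonneg _).trans hq
  have hwt : |w - t * (1 + ‖θ‖ ^ 2)⁻¹| ≤ M / 3 + D := by
    have h1 : w - t * (1 + ‖θ‖ ^ 2)⁻¹ = (⟪Y, θ⟫ - q) * (1 + ‖θ‖ ^ 2)⁻¹ := by
      field_simp
      linarith
    rw [h1, abs_mul]
    have h2 : |⟪Y, θ⟫ - q| ≤ M / 3 + D := (abs_sub _ _).trans (add_le_add hYθ hq)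
    have h3 : |(1 + ‖θ‖ ^ 2)⁻¹| ≤ 1 := by
      rw [abs_of_pos (by positivity)]
      exact inv_le_one_of_one_le₀ (by have := sq_nonneg ‖θ‖; linarith)
    calc |⟪Y, θ⟫ - q| * |(1 + ‖θ‖ ^ 2)⁻¹| ≤ (M / 3 + D) * 1 :=
          mul_le_mul h2 h3 (abs_nonneg _) (by positivity)
      _ = _ := mul_one _
  have hy : y - (-(2 * t)) • (1 + ‖η‖ ^ 2)⁻¹ • η = Y - (2 * (w - t * (1 + ‖θ‖ ^ 2)⁻¹)) • θ -
      (2 * t) • ((1 + ‖θ‖ ^ 2)⁻¹ • θ - (1 + ‖η‖ ^ 2)⁻¹ • η) := by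
    rw [hYd]
    module
  rw [hy]
  have hl := lip hθ hη
  have e1 : ‖(2 * (w - t * (1 + ‖θ‖ ^ 2)⁻¹)) • θ‖ ≤ 2 * (M / 3 + D) * (1 / 3) := by
    rw [norm_smul, Real.norm_eq_abs, abs_mul, abs_two]
    exact mul_le_mul (by linarith) hθ (norm_nonneg _) (by positivity)
  have e2 : ‖(2 * t) • ((1 + ‖θ‖ ^ 2)⁻¹ • θ - (1 + ‖η‖ ^ 2)⁻¹ • η)‖ ≤
      2 * |t| * (2 * (7 * s)) := by
    rw [norm_smul, Real.norm_eq_abs, abs_mul, abs_two]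
    exact mul_le_mul_of_nonneg_left (by linarith) (by positivity)
  calc _ ≤ ‖Y‖ + ‖(2 * (w - t * (1 + ‖θ‖ ^ 2)⁻¹)) • θ‖ +
        ‖(2 * t) • ((1 + ‖θ‖ ^ 2)⁻¹ • θ - (1 + ‖η‖ ^ 2)⁻¹ • η)‖ :=
        (norm_sub_le _ _).trans (add_le_add_left (norm_sub_le _ _) _)
    _ ≤ M + 2 * (M / 3 + D) * (1 / 3) + 2 * |t| * (2 * (7 * s)) := by
        gcongr
    _ ≤ _ := by
        have e3 : 0 ≤ |t| * s := by
          by_contra hneg
          push Not at hneg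
          have : s < 0 := by
            by_contra hs'
            push Not at hs'
            exact absurd (mul_nonneg (abs_nonneg t) hs') (not_le.2 hneg)
          have h7 : ‖θ - η‖ ≤ 7 * s := hθη
          linarith [norm_nonneg (θ - η)]
        have e4 : 2 * |t| * (2 * (7 * s)) = 28 * (|t| * s) := by ring
        rw [e4]
        linarith

private theorem case1 {ρ u s T : ℝ} (hs : 0 < s) (hu : 1 ≤ u) (hρ : 1 ≤ ρ) (hc : T * s ≤ u) :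
    s * (ρ * (u ^ 2 / s + T)) ≤ 2 * (ρ * u ^ 2) := by
  have e2 : s * (ρ * (u ^ 2 / s + T)) = ρ * (u ^ 2 + T * s) := by
    field_simp
  have e3 : T * s ≤ u ^ 2 := hc.trans (by nlinarith)
  rw [e2]
  have := mul_le_mul_of_nonneg_left e3 (by linarith : (0 : ℝ) ≤ ρ)
  linarith

private theorem case2 {ρ u s T : ℝ} (hs : 0 < s) (hu : 1 ≤ u) (hρ : 1 ≤ ρ) (hT : 0 ≤ T)
    (hc : u < T * s) : ρ * (u ^ 2 / s + T) ≤ 2 * ρ * (u * T) := by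
  have e1 : u ^ 2 / s ≤ u * T := by
    rw [div_le_iff₀ hs]
    have := mul_le_mul_of_nonneg_left hc.le (by linarith : (0 : ℝ) ≤ u)
    linarith
  have e2 : T ≤ u * T := by
    have := mul_le_mul_of_nonneg_right hu hT
    linarith
  have := mul_le_mul_of_nonneg_left (add_le_add e1 e2) (by linarith : (0 : ℝ) ≤ ρ)
  linarith

private theorem tbound {ρ u T : ℝ} (hu : 1 ≤ u) (hρ : 1 ≤ ρ) (hT : 0 < T)
    (h : T ^ 2 ≤ 3 * (2 * ρ * (u * T) + ρ * u ^ 2)) : T ≤ 8 * (ρ * u) := by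
  by_contra hcon
  push Not at hcon
  have e2 : 0 < ρ * u := by positivity
  have e0 : u ≤ ρ * u := by
    have := mul_le_mul_of_nonneg_right hρ (by linarith : (0 : ℝ) ≤ u)
    linarith
  have e3 : (ρ * u) * u ≤ (ρ * u) * (T / 8) := by
    apply mul_le_mul_of_nonneg_left _ e2.le
    linarith
  have e5 : 8 * (ρ * u) * T < T * T := mul_lt_mul_of_pos_right hcon hT
  have e6 : 0 < ρ * u * T := by positivity
  have e7 : 2 * ρ * (u * T) = 2 * (ρ * u * T) := by ring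
  have e8 : ρ * u ^ 2 = ρ * u * u := by ring
  have e9 : T ^ 2 = T * T := by ring
  rw [e7, e8, e9] at h
  have e10 : ρ * u * (T / 8) = ρ * u * T / 8 := by ring
  linarith

private theorem real_part {ρ u s T M D v Δ W : ℝ} (hs : 0 < s) (hs1 : s ≤ 1) (hu : 1 ≤ u)
    (hρ : 1 ≤ ρ) (hT : 0 ≤ T) (hM : M = ρ * (u ^ 2 / s + T)) (hD : D = ρ * u ^ 2)
    (hv0 : 0 ≤ v) (hv : v ≤ 14 * s) (hΔ : 0 ≤ Δ) (hW : 0 ≤ W) (hA : 8 / 9 * Δ ≤ v * M + 2 * D)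
    (hB : W * v ≤ M + Δ / 3) (hC : T ^ 2 ≤ W * (10 / 9) + M / 3 + D) :
    Δ ≤ 255 * (ρ ^ 2 * u ^ 2) := by
  have hM0 : 0 ≤ M := by rw [hM]; positivity
  have hD0 : 0 ≤ D := by rw [hD]; positivity
  have hDr : D ≤ ρ ^ 2 * u ^ 2 := by
    have h1 : D = 1 * (ρ * u ^ 2) := by rw [hD, one_mul]
    have h2 : ρ ^ 2 * u ^ 2 = ρ * (ρ * u ^ 2) := by ring
    rw [h1, h2]
    exact mul_le_mul_of_nonneg_right hρ (by positivity)
  by_cases hc : T * s ≤ u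
  · have e1 := case1 hs hu hρ hc
    rw [← hM, ← hD] at e1
    have e2 : v * M ≤ 28 * D := by
      calc v * M ≤ 14 * s * M := mul_le_mul_of_nonneg_right hv hM0
        _ = 14 * (s * M) := by ring
        _ ≤ 14 * (2 * D) := by linarith
        _ = _ := by ring
    linarith
  · push Not at hc
    have hM2 := case2 hs hu hρ hT hc
    rw [← hM] at hM2
    have hTpos : 0 < T := by
      by_contra h
      have : T = 0 := le_antisymm (not_lt.1 h) hT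
      rw [this, zero_mul] at hc
      linarith
    have hT2 : 0 < T ^ 2 := by positivity
    have hMM : M ^ 2 ≤ 4 * (ρ ^ 2 * u ^ 2) * T ^ 2 := by
      calc M ^ 2 ≤ (2 * ρ * (u * T)) ^ 2 := pow_le_pow_left₀ hM0 hM2 2
        _ = _ := by ring
    by_cases hcc : T ^ 2 / 2 ≤ W ∧ M ≤ W
    · obtain ⟨c1, c2⟩ := hcc
      have hwpos : 0 < W := by linarith
      have e1 : 8 / 9 * Δ * W ≤ (M + Δ / 3) * M + 2 * D * W := by
        calc 8 / 9 * Δ * W ≤ (v * M + 2 * D) * W :=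
              mul_le_mul_of_nonneg_right hA hwpos.le
          _ = (W * v) * M + 2 * D * W := by ring
          _ ≤ (M + Δ / 3) * M + 2 * D * W := by
              have := mul_le_mul_of_nonneg_right hB hM0
              linarith
      have e2 : Δ / 3 * M ≤ Δ / 3 * W := mul_le_mul_of_nonneg_left c2 (by positivity)
      have e3 : 4 * (ρ ^ 2 * u ^ 2) * T ^ 2 ≤ 4 * (ρ ^ 2 * u ^ 2) * (2 * W) :=
        mul_le_mul_of_nonneg_left (by linarith) (by positivity)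
      have e6 : (M + Δ / 3) * M = M ^ 2 + Δ / 3 * M := by ring
      have e7 : D * W ≤ ρ ^ 2 * u ^ 2 * W := mul_le_mul_of_nonneg_right hDr hwpos.le
      have e4 : 5 / 9 * Δ * W ≤ (10 * (ρ ^ 2 * u ^ 2)) * W := by
        rw [e6] at e1
        have e8 : 5 / 9 * Δ * W = 8 / 9 * Δ * W - Δ / 3 * W := by ring
        rw [e8]
        have e9 : 4 * (ρ ^ 2 * u ^ 2) * (2 * W) = 8 * (ρ ^ 2 * u ^ 2 * W) := by ring
        have e10 : 10 * (ρ ^ 2 * u ^ 2) * W = 10 * (ρ ^ 2 * u ^ 2 * W) := by ring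
        have e11 : 2 * D * W = 2 * (D * W) := by ring
        rw [e10]
        rw [e9] at e3
        rw [e11] at e1
        linarith
      have e5 : 5 / 9 * Δ ≤ 10 * (ρ ^ 2 * u ^ 2) := le_of_mul_le_mul_right e4 hwpos
      have : 0 ≤ ρ ^ 2 * u ^ 2 := by positivity
      linarith
    · have ht : T ^ 2 ≤ 3 * (M + D) := by
        rw [not_and_or, not_le, not_le] at hcc
        rcases hcc with c | c
        · linarith
        · linarith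
      have hT8 : T ≤ 8 * (ρ * u) := by
        apply tbound hu hρ hTpos
        rw [← hD]
        linarith
      have e1 : v * M ≤ 224 * (ρ ^ 2 * u ^ 2) := by
        calc v * M ≤ 14 * s * (2 * ρ * (u * T)) := mul_le_mul hv hM2 hM0 (by positivity)
          _ ≤ 14 * 1 * (2 * ρ * (u * (8 * (ρ * u)))) := by gcongr
          _ = 224 * (ρ ^ 2 * u ^ 2) := by ring
      linarith

private theorem slice {n : ℕ} {t s r ρ w₁ w₂ : ℝ} {y η : EE n} (hs : 0 < s) (hs1 : s ≤ 1)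
    (hr : 1 ≤ r) (hρ : 1 ≤ ρ)
    (h1 : (y, w₁) ∈ SV t s (ρ * r) (ρ * (r / s + Real.sqrt |t|)) η)
    (h2 : (y, w₂) ∈ SV t s (ρ * r) (ρ * (r / s + Real.sqrt |t|)) η) :
    |w₁ - w₂| ≤ 255 * (ρ ^ 2 * r) := by
  obtain ⟨θ₁, hθ₁, hη₁, hq₁, hY₁⟩ := h1
  obtain ⟨θ₂, hθ₂, hη₂, hq₂, hY₂⟩ := h2
  simp only at hq₁ hY₁ hq₂ hY₂
  have hw₁ := w_eq (n := n) (t := t) (w := w₁) (y := y) (θ := θ₁) rfl
  obtain ⟨q₁, hq₁d⟩ : ∃ q : ℝ, q = t - w₁ + ⟪y, θ₁⟫ + w₁ * ‖θ₁‖ ^ 2 := ⟨_, rfl⟩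
  obtain ⟨q₂, hq₂d⟩ : ∃ q : ℝ, q = t - w₂ + ⟪y, θ₂⟫ + w₂ * ‖θ₂‖ ^ 2 := ⟨_, rfl⟩
  obtain ⟨Y₁, hY₁d⟩ : ∃ Y : EE n, Y = y + (2 * w₁) • θ₁ := ⟨_, rfl⟩
  obtain ⟨Y₂, hY₂d⟩ : ∃ Y : EE n, Y = y + (2 * w₂) • θ₂ := ⟨_, rfl⟩
  obtain ⟨M, hM⟩ : ∃ M : ℝ, M = ρ * (r / s + Real.sqrt |t|) := ⟨_, rfl⟩
  obtain ⟨D, hD⟩ : ∃ D : ℝ, D = ρ * r := ⟨_, rfl⟩
  rw [← hq₁d, ← hD] at hq₁
  rw [← hq₂d, ← hD] at hq₂
  rw [← hY₁d, ← hM] at hY₁
  rw [← hY₂d, ← hM] at hY₂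
  rw [← hq₁d, ← hY₁d] at hw₁
  obtain ⟨v, hv⟩ : ∃ v : ℝ, v = ‖θ₁ - θ₂‖ := ⟨_, rfl⟩
  have hv0 : 0 ≤ v := by rw [hv]; exact norm_nonneg _
  have hv14 : v ≤ 14 * s := by
    have : θ₁ - θ₂ = (θ₁ - η) - (θ₂ - η) := by abel
    rw [hv, this]
    refine (norm_sub_le _ _).trans ?_
    linarith
  have hM0 : 0 ≤ M := (norm_nonneg _).trans hY₁
  have hD0 : 0 ≤ D := (abs_nonneg _).trans hq₁
  have hI : (w₁ - w₂) * (1 - ⟪θ₁, θ₂⟫) = ⟪Y₁ + Y₂, θ₁ - θ₂⟫ / 2 - (q₁ - q₂) := by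
    rw [hY₁d, hY₂d, hq₁d, hq₂d]
    simp only [inner_add_left, inner_sub_right, inner_smul_left, conj_trivial,
      real_inner_self_eq_norm_sq]
    rw [real_inner_comm θ₁ θ₂]
    ring
  have hJ : (2 * w₁) • (θ₁ - θ₂) = Y₁ - Y₂ - (2 * (w₁ - w₂)) • θ₂ := by
    rw [hY₁d, hY₂d]
    module
  obtain ⟨Δ, hΔ⟩ : ∃ Δ : ℝ, Δ = |w₁ - w₂| := ⟨_, rfl⟩
  have hΔ0 : 0 ≤ Δ := by rw [hΔ]; exact abs_nonneg _
  have hin : |⟪θ₁, θ₂⟫| ≤ 1 / 9 := by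
    refine (abs_real_inner_le_norm _ _).trans ?_
    calc ‖θ₁‖ * ‖θ₂‖ ≤ (1 / 3) * (1 / 3) := mul_le_mul hθ₁ hθ₂ (norm_nonneg _) (by norm_num)
      _ = _ := by norm_num
  have hA : 8 / 9 * Δ ≤ v * M + 2 * D := by
    have e1 : |(w₁ - w₂) * (1 - ⟪θ₁, θ₂⟫)| = Δ * |1 - ⟪θ₁, θ₂⟫| := by rw [abs_mul, hΔ]
    have e2 : 8 / 9 ≤ |1 - ⟪θ₁, θ₂⟫| := by
      have := abs_le.1 hin
      refine le_trans ?_ (le_abs_self _)
      linarith
    have e3 : |⟪Y₁ + Y₂, θ₁ - θ₂⟫ / 2 - (q₁ - q₂)| ≤ v * M + 2 * D := by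
      have e4 : |⟪Y₁ + Y₂, θ₁ - θ₂⟫| ≤ 2 * M * v := by
        refine (abs_real_inner_le_norm _ _).trans ?_
        rw [← hv]
        apply mul_le_mul_of_nonneg_right _ hv0
        refine (norm_add_le _ _).trans ?_
        linarith
      have e5 : |q₁ - q₂| ≤ 2 * D := by
        refine (abs_sub _ _).trans ?_
        linarith
      refine (abs_sub _ _).trans ?_
      rw [abs_div, abs_two]
      linarith
    rw [← hI, e1] at e3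
    have := mul_le_mul_of_nonneg_left e2 hΔ0
    linarith
  have hB : |w₁| * v ≤ M + Δ / 3 := by
    have e1 : ‖(2 * w₁) • (θ₁ - θ₂)‖ = 2 * (|w₁| * v) := by
      rw [norm_smul, Real.norm_eq_abs, abs_mul, abs_two, hv]
      ring
    have e2 : ‖Y₁ - Y₂ - (2 * (w₁ - w₂)) • θ₂‖ ≤ 2 * M + 2 * Δ * (1 / 3) := by
      refine (norm_sub_le _ _).trans ?_
      have e3 : ‖Y₁ - Y₂‖ ≤ 2 * M := by
        refine (norm_sub_le _ _).trans ?_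
        linarith
      have e4 : ‖(2 * (w₁ - w₂)) • θ₂‖ ≤ 2 * Δ * (1 / 3) := by
        rw [norm_smul, Real.norm_eq_abs, abs_mul, abs_two, ← hΔ]
        exact mul_le_mul_of_nonneg_left hθ₂ (by positivity)
      linarith
    rw [← hJ, e1] at e2
    linarith
  have hC : |t| ≤ |w₁| * (10 / 9) + M / 3 + D := by
    have e1 : |w₁ * (1 + ‖θ₁‖ ^ 2)| = |w₁| * (1 + ‖θ₁‖ ^ 2) := by
      rw [abs_mul, abs_of_pos (by positivity : (0 : ℝ) < 1 + ‖θ₁‖ ^ 2)]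
    have e2 : 1 + ‖θ₁‖ ^ 2 ≤ 10 / 9 := by
      have : ‖θ₁‖ ^ 2 ≤ (1 / 3) ^ 2 := pow_le_pow_left₀ (norm_nonneg _) hθ₁ 2
      linarith
    have e3 : |⟪Y₁, θ₁⟫| ≤ M / 3 := by
      refine (abs_real_inner_le_norm _ _).trans ?_
      calc ‖Y₁‖ * ‖θ₁‖ ≤ M * (1 / 3) := mul_le_mul hY₁ hθ₁ (norm_nonneg _) hM0
        _ = _ := by ring
    have e4 : t = w₁ * (1 + ‖θ₁‖ ^ 2) - ⟪Y₁, θ₁⟫ + q₁ := by linarith
    calc |t| = |w₁ * (1 + ‖θ₁‖ ^ 2) - ⟪Y₁, θ₁⟫ + q₁| := by rw [← e4]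
      _ ≤ |w₁ * (1 + ‖θ₁‖ ^ 2)| + |⟪Y₁, θ₁⟫| + |q₁| :=
          (abs_add_le _ _).trans (add_le_add_left (abs_sub _ _) _)
      _ ≤ |w₁| * (10 / 9) + M / 3 + D := by
          rw [e1]
          have := mul_le_mul_of_nonneg_left e2 (abs_nonneg w₁)
          linarith
  rw [← hΔ]
  obtain ⟨T, hT⟩ : ∃ T : ℝ, T = Real.sqrt |t| := ⟨_, rfl⟩
  have hT0 : 0 ≤ T := by rw [hT]; positivity
  have hTT : T ^ 2 = |t| := by rw [hT]; exact Real.sq_sqrt (abs_nonneg _)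
  obtain ⟨u, hu⟩ : ∃ u : ℝ, u = Real.sqrt r := ⟨_, rfl⟩
  have hu1 : 1 ≤ u := by
    rw [hu, ← Real.sqrt_one]
    exact Real.sqrt_le_sqrt hr
  have huu : u ^ 2 = r := by rw [hu]; exact Real.sq_sqrt (by linarith)
  rw [← hT, ← huu] at hM
  rw [← huu] at hD
  rw [← hTT] at hC
  rw [← huu]
  exact real_part hs hs1 hu1 hρ hT0 hM hD hv0 hv14 hΔ0 (abs_nonneg _) hA hB hC

theorem pf_VOL : T_VOL := by
  intro n
  obtain ⟨V, hV⟩ : ∃ V : ℝ, V = (volume (Metric.ball (0 : EE n) 1)).toReal := ⟨_, rfl⟩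
  have hV0 : 0 ≤ V := hV ▸ ENNReal.toReal_nonneg
  have hVe : volume (Metric.ball (0 : EE n) 1) = ENNReal.ofReal V := by
    rw [hV, ENNReal.ofReal_toReal]
    exact measure_ball_lt_top.ne
  refine ⟨255 * 33 ^ n * V + 1, by have : 0 ≤ 255 * 33 ^ n * V := by positivity
                                   linarith, ?_⟩
  intro t s r ρ η hs hs1 hr hρ hη
  refine ⟨sv_closed _ _ _ _ _, ?_⟩
  obtain ⟨Lam, hLam⟩ : ∃ L : ℝ, L = r / s + |t| * s := ⟨_, rfl⟩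
  have hrs : r ≤ r / s := by
    rw [le_div_iff₀ hs]
    calc r * s ≤ r * 1 := mul_le_mul_of_nonneg_left hs1 (by linarith)
      _ = r := mul_one r
  have hLam0 : 0 ≤ Lam := by rw [hLam]; positivity
  have hsq : Real.sqrt |t| ≤ Lam := by
    have h1 : Real.sqrt |t| ^ 2 = |t| := Real.sq_sqrt (abs_nonneg _)
    have h2 : s * Real.sqrt |t| ≤ s * Lam := by
      have e1 : s * Lam = r + (s * Real.sqrt |t|) ^ 2 := by
        rw [hLam, mul_pow, h1]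
        field_simp
      rw [e1]
      nlinarith [sq_nonneg (s * Real.sqrt |t| - 1)]
    exact le_of_mul_le_mul_left h2 hs
  have hts : |t| * s ≤ Lam := by
    rw [hLam]
    have : 0 ≤ r / s := by positivity
    linarith
  have hrsL : r / s ≤ Lam := by
    rw [hLam]
    have : 0 ≤ |t| * s := by positivity
    linarith
  obtain ⟨y0, hy0⟩ : ∃ y0 : EE n, y0 = (-(2 * t)) • (1 + ‖η‖ ^ 2)⁻¹ • η := ⟨_, rfl⟩
  have hball : ∀ y w, (y, w) ∈ SV t s (ρ * r) (ρ * (r / s + Real.sqrt |t|)) η →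
      y ∈ Metric.closedBall y0 (33 * (ρ * Lam)) := by
    intro y w h
    have h1 := y_ball hη h
    rw [Metric.mem_closedBall, dist_eq_norm, hy0]
    refine h1.trans ?_
    have h2 : ρ * (r / s + Real.sqrt |t|) ≤ ρ * (2 * Lam) :=
      mul_le_mul_of_nonneg_left (by linarith) (by linarith)
    have h3 : ρ * r ≤ ρ * Lam := mul_le_mul_of_nonneg_left (by linarith) (by linarith)
    have h4 : |t| * s ≤ ρ * Lam := by
      calc |t| * s ≤ 1 * Lam := by linarith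
        _ ≤ ρ * Lam := mul_le_mul_of_nonneg_right hρ hLam0
    linarith
  have hslice : ∀ y : EE n, volume (Prod.mk y ⁻¹' SV t s (ρ * r)
      (ρ * (r / s + Real.sqrt |t|)) η) ≤
      (Metric.closedBall y0 (33 * (ρ * Lam))).indicator
        (fun _ => ENNReal.ofReal (255 * (ρ ^ 2 * r))) y := by
    intro y
    by_cases hy : y ∈ Metric.closedBall y0 (33 * (ρ * Lam))
    · rw [indicator_of_mem hy]
      refine (Real.volume_le_diam _).trans ?_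
      apply Metric.ediam_le
      intro w₁ h1 w₂ h2
      rw [edist_dist, Real.dist_eq]
      exact ENNReal.ofReal_le_ofReal (slice hs hs1 hr hρ h1 h2)
    · rw [indicator_of_notMem hy]
      have : Prod.mk y ⁻¹' SV t s (ρ * r) (ρ * (r / s + Real.sqrt |t|)) η = ∅ := by
        rw [eq_empty_iff_forall_notMem]
        intro w hw
        exact hy (hball y w hw)
      rw [this, measure_empty]
  rw [Measure.volume_eq_prod, Measure.prod_apply (sv_closed _ _ _ _ _).measurableSet]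
  refine (lintegral_mono hslice).trans ?_
  rw [lintegral_indicator Metric.isClosed_closedBall.measurableSet, setLIntegral_const,
    Measure.addHaar_closedBall _ _ (by positivity), hVe, finrank_euclideanSpace,
    Fintype.card_fin, ← ENNReal.ofReal_mul (by positivity), ← ENNReal.ofReal_mul (by positivity)]
  apply ENNReal.ofReal_le_ofReal
  rw [← hLam]
  have e1 : 255 * (ρ ^ 2 * r) * ((33 * (ρ * Lam)) ^ n * V) =
      (255 * 33 ^ n * V) * (ρ ^ (n + 2) * r * Lam ^ n) := by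
    rw [mul_pow, mul_pow, pow_add]
    ring
  rw [e1]
  have e2 : (255 * 33 ^ n * V + 1) * ρ ^ (n + 2) * r * Lam ^ n =
      (255 * 33 ^ n * V + 1) * (ρ ^ (n + 2) * r * Lam ^ n) := by ring
  rw [e2]
  apply mul_le_mul_of_nonneg_right _ (by positivity)
  linarith

end Pool.Agent.H1.G.VOL
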